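import Pool.Agent.Lib.MP_5684f0_lc.Main

/-!
Programs with an oracle.
-/

namespace Pool.Agent.Lib.MP_5684f0_lc.U

open Filter Topology Set Nat.Partrec

/-- Programs with an oracle: the library codes, the code `zero` being read as the oracle. -/
def ev (x : Cs) : Code → ℕ → Part ℕ
  | .zero => fun n => Part.some (if x n then 1 else 0)
  | .succ => fun n => Part.some (n + 1)
  | .left => fun n => Part.some (Nat.unpair n).1
  | .right => fun n => Part.some (Nat.unpair n).2
  | .pair cf cg => fun n => Nat.pair <$> ev x cf n <*> ev x cg n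
  | .comp cf cg => fun n => ev x cg n >>= ev x cf
  | .prec cf cg => fun p =>
      let (a, n) := Nat.unpair p
      n.rec (ev x cf a) fun y IH => do
        let i ← IH
        ev x cg (Nat.pair a (Nat.pair y i))
  | .rfind' cf => fun a => Nat.rfind fun n => (fun m => m = 0) <$> ev x cf (Nat.pair a n)

/-- A program for a constant. -/
def cst : ℕ → Code
  | 0 => .comp .left .zero
  | n + 1 => .comp .succ (cst n)

theorem ev_cst (x : Cs) : ∀ k n, ev x (cst k) n = Part.some k
  | 0, n => by
    simp only [cst, ev]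
    cases x n <;> simp [Nat.unpair]
  | k + 1, n => by
    simp only [cst, ev, ev_cst x k n]
    simp

/-- The first argument is fixed. -/
def cur (c : Code) (a : ℕ) : Code := .comp c (.pair (cst a) (.pair .left .right))

theorem ev_cur (x : Cs) (c : Code) (a j : ℕ) : ev x (cur c a) j = ev x c (Nat.pair a j) := by
  simp [cur, ev, ev_cst, Seq.seq]

theorem exists_code {y : Cs} {F : ℕ →. ℕ} (h : Nat.RecursiveIn {chi y} F) :
    ∃ c, ev y c = F := by
  induction h with
  | zero => exact ⟨cst 0, funext fun n => ev_cst y 0 n⟩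
  | succ => exact ⟨.succ, rfl⟩
  | left => exact ⟨.left, rfl⟩
  | right => exact ⟨.right, rfl⟩
  | oracle g hg => exact ⟨.zero, (mem_singleton_iff.1 hg).symm⟩
  | pair _ _ h1 h2 =>
    obtain ⟨a, rfl⟩ := h1
    obtain ⟨b, rfl⟩ := h2
    exact ⟨.pair a b, rfl⟩
  | comp _ _ h1 h2 =>
    obtain ⟨a, rfl⟩ := h1
    obtain ⟨b, rfl⟩ := h2
    exact ⟨.comp a b, rfl⟩
  | prec _ _ h1 h2 =>
    obtain ⟨a, rfl⟩ := h1
    obtain ⟨b, rfl⟩ := h2
    exact ⟨.prec a b, rfl⟩
  | rfind _ h1 =>
    obtain ⟨a, rfl⟩ := h1
    exact ⟨.rfind' a, rfl⟩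

/-- The functions computable from a real form a sequence. -/
theorem exists_enum_rec (c : Cs) : ∃ e : ℕ → ℕ → ℕ, ∀ ρ, Rec c ρ → ∃ m, e m = ρ := by
  classical
  refine ⟨fun m n => if h : (ev c (Denumerable.ofNat Code m) n).Dom then
    (ev c (Denumerable.ofNat Code m) n).get h else 0, fun ρ hρ => ?_⟩
  obtain ⟨i, hi⟩ := exists_code hρ
  refine ⟨Encodable.encode i, funext fun n => ?_⟩
  simp [hi]

/-- The oracle is replaced by a program. -/
def sub (i : Code) (c : Code) : Code :=
  Code.recOn c i .succ .left .right (fun _ _ a b => .pair a b) (fun _ _ a b => .comp a b)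
    (fun _ _ a b => .prec a b) (fun _ a => .rfind' a)

theorem ev_sub {x y : Cs} {i : Code} (h : ev y i = chi x) (c : Code) :
    ev y (sub i c) = ev x c := by
  induction c with
  | zero => exact h
  | succ => rfl
  | left => rfl
  | right => rfl
  | pair a b h1 h2 =>
    change ev y (.pair (sub i a) (sub i b)) = _
    simp only [ev, h1, h2]
  | comp a b h1 h2 =>
    change ev y (.comp (sub i a) (sub i b)) = _
    simp only [ev, h1, h2]
  | prec a b h1 h2 =>
    change ev y (.prec (sub i a) (sub i b)) = _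
    simp only [ev, h1, h2]
  | rfind' a h1 =>
    change ev y (.rfind' (sub i a)) = _
    simp only [ev, h1]

theorem primrec_sub (i : Code) : Primrec (sub i) := by
  have h3 : Primrec fun a : Code × Code × Code × Code × Code => a.2.2.2.1 :=
    Primrec.fst.comp (Primrec.snd.comp (Primrec.snd.comp Primrec.snd))
  have h4 : Primrec fun a : Code × Code × Code × Code × Code => a.2.2.2.2 :=
    Primrec.snd.comp (Primrec.snd.comp (Primrec.snd.comp Primrec.snd))
  exact Code.primrec_recOn (α := Code) (σ := Code) (c := fun c => c) Primrec.id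
    (Primrec.const i) (Primrec.const .succ) (Primrec.const .left) (Primrec.const .right)
    (pr := fun _ _ _ a b => .pair a b) (Code.primrec₂_pair.comp h3 h4)
    (co := fun _ _ _ a b => .comp a b) (Code.primrec₂_comp.comp h3 h4)
    (pc := fun _ _ _ a b => .prec a b) (Code.primrec₂_prec.comp h3 h4)
    (rf := fun _ _ a => .rfind' a) (Code.primrec_rfind'.comp (Primrec.snd.comp Primrec.snd))

/-- A computation reads finitely many bits of the oracle. -/
theorem ev_open (x : Cs) (c : Code) : ∀ n v, v ∈ ev x c n → ∀ᶠ x' in 𝓝 x, v ∈ ev x' c n := by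
  induction c with
  | zero =>
    intro n v h
    filter_upwards [cyl_mem_nhds x (n + 1)] with x' hx
    have : x' n = x n := PiNat.mem_cylinder_iff.1 hx n (Nat.lt_succ_self n)
    simpa only [ev, this] using h
  | succ => exact fun n v h => Eventually.of_forall fun _ => h
  | left => exact fun n v h => Eventually.of_forall fun _ => h
  | right => exact fun n v h => Eventually.of_forall fun _ => h
  | pair a b h1 h2 =>
    intro n v h
    simp only [ev, Seq.seq, Part.map_eq_map, Part.mem_bind_iff,
      Part.mem_map_iff] at h ⊢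
    obtain ⟨_, ⟨p, hp, rfl⟩, q, hq, rfl⟩ := h
    filter_upwards [h1 n p hp, h2 n q hq] with x' a1 a2
    exact ⟨_, ⟨p, a1, rfl⟩, q, a2, rfl⟩
  | comp a b h1 h2 =>
    intro n v h
    simp only [ev, Part.bind_eq_bind, Part.mem_bind_iff] at h ⊢
    obtain ⟨p, hp, hv⟩ := h
    filter_upwards [h2 n p hp, h1 p v hv] with x' a1 a2
    exact ⟨p, a1, a2⟩
  | prec a b h1 h2 =>
    intro n
    simp only [ev]
    generalize n.unpair.2 = k
    induction k with
    | zero => exact fun v h => h1 _ v h
    | succ k ih =>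
      intro v h
      simp only [Part.bind_eq_bind, Part.mem_bind_iff] at h ih ⊢
      obtain ⟨p, hp, hv⟩ := h
      filter_upwards [ih p hp, h2 _ v hv] with x' a1 a2
      exact ⟨p, a1, a2⟩
  | rfind' a h1 =>
    intro n v h
    have key : ∀ z : Cs, v ∈ ev z (.rfind' a) n ↔
        (∃ p ∈ ev z a (Nat.pair n v), decide (p = 0) = true) ∧
          ∀ {m : ℕ}, m < v → ∃ q ∈ ev z a (Nat.pair n m), decide (q = 0) = false := fun z => by
      refine Nat.mem_rfind.trans ?_
      simp only [Part.map_eq_map, Part.mem_map_iff]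
    simp only [key] at h ⊢
    obtain ⟨⟨p, hp, e⟩, hlt⟩ := h
    have h2 : ∀ᶠ x' in 𝓝 x, ∀ m ∈ Finset.range v,
        ∃ q ∈ ev x' a (Nat.pair n m), decide (q = 0) = false := by
      refine (Finset.eventually_all _).2 fun m hm => ?_
      obtain ⟨q, hq, e'⟩ := hlt (Finset.mem_range.1 hm)
      exact (h1 _ q hq).mono fun x' h => ⟨q, h, e'⟩
    filter_upwards [h1 _ p hp, h2] with x' a1 a2
    exact ⟨⟨p, a1, e⟩, fun {m} hm => a2 m (Finset.mem_range.2 hm)⟩

end Pool.Agent.Lib.MP_5684f0_lc.U
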