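import Pool.Agent.Lib.MP_5684f0_lc.Defs

/-!
The statements of the hand-ins `Linear` and `Wqo` follow from the statement of `Classification`.
Only the definitions are imported.
-/

namespace Pool.Agent.Lib.MP_5684f0_lc.U.Impl

open Set

/-- The statement of `Classification`. -/
def Cls : Prop :=
  ∃ (r : (Cs → Cs) → Ordinal.{0}) (t : (Cs → Cs) → SignType),
    (∀ f g, Tame f → Tame g →
      (leCone f g ↔ r f < r g ∨ (r f = r g ∧ (t f = 0 ∨ t f = t g)))) ∧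
    (∀ f, Tame f → r (cpl f) = r f ∧ t (cpl f) = - t f) ∧
    ∀ α σ, (∃ f, Tame f ∧ r f = α ∧ t f = σ) ↔ α < Ordinal.omega 1 ∧ (α ≠ 0 ∨ σ ≠ 0)

theorem tame_cpl {g : Cs → Cs} (h : Tame g) : Tame (cpl g) := by
  obtain ⟨c, h1, π, h2, h3, h4⟩ := h
  refine ⟨c, fun x y hx hy => ?_, π, h2, h3, fun a b => ?_⟩
  · obtain ⟨ρ, hρ, h⟩ := h1 x y hx hy
    exact ⟨ρ, hρ, fun n => congrArg (!·) (h n)⟩
  · have : {x | (cpl g ∘ π) x a = b} = {x | (g ∘ π) x a = !b} := by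
      ext x
      simp only [cpl, Function.comp, mem_ofPred_eq]
      cases g (π x) a <;> cases b <;> simp
    rw [this]
    exact h4 a _

theorem linear (H : Cls) (f g : Cs → Cs) (hf : Tame f) (hg : Tame g) :
    leCone g f ∨ leCone f (cpl g) := by
  obtain ⟨r, t, h1, h2, -⟩ := H
  rw [h1 g f hg hf, h1 f _ hf (tame_cpl hg), (h2 g hg).1, (h2 g hg).2]
  rcases lt_trichotomy (r f) (r g) with h | h | h
  · exact Or.inr (Or.inl h)
  · cases hf : t f <;> cases hg : t g <;> simp [h]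
  · exact Or.inl (Or.inl h)

theorem wqo (H : Cls) (F : ℕ → Cs → Cs) (hF : ∀ k, Tame (F k)) :
    ∃ i j, i < j ∧ leCone (F i) (F j) := by
  obtain ⟨r, t, h1, -, -⟩ := H
  obtain ⟨k0, hk0⟩ := Finite.exists_infinite_fiber fun n => t (F n)
  have hinf := infinite_coe_iff.1 hk0
  obtain ⟨_, ⟨i, hi, rfl⟩, hm⟩ := wellFounded_lt.has_min
    ((fun n => r (F n)) '' ((fun n => t (F n)) ⁻¹' {k0})) (hinf.nonempty.image _)
  obtain ⟨j, hj, hij⟩ := hinf.exists_gt i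
  refine ⟨i, j, hij, (h1 _ _ (hF i) (hF j)).2 ?_⟩
  exact (lt_or_eq_of_le (not_lt.1 (hm _ ⟨j, hj, rfl⟩))).imp_right fun e =>
    ⟨e, Or.inr ((mem_singleton_iff.1 hi).trans (mem_singleton_iff.1 hj).symm)⟩

end Pool.Agent.Lib.MP_5684f0_lc.U.Impl
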