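import Pool.Agent.Lib.MP_5684f0_lc.U.Onto

/-!
The classification of tame functions.
-/

namespace Pool.Agent.Lib.MP_5684f0_lc.U

open Set Ordinal

theorem not_zero {f : Cs → Cs} (hf : Tame f) : rk f ≠ 0 ∨ sg f ≠ 0 := by
  by_contra hc
  push Not at hc
  obtain ⟨h1, h2⟩ := hc
  have h3 : P f (0, false) ∧ P f (0, true) := by
    unfold sg at h2
    rw [h1] at h2
    by_cases a0 : P f (0, false) <;> by_cases a1 : P f (0, true) <;> simp_all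
  obtain ⟨f', c, a1, a2, a3⟩ := hf.normal
  have hf' : ∀ v, P f v → Cov f' {v} univ := fun v hv =>
    (hv.of_le (leCone_of_leM fun x hx => (a3 x hx).2)).cov a1
  obtain ⟨Y, hY, hp⟩ := cov_lower a1 a2 (h1 ▸ rk_lt hf) (hf' _ h3.1) (hf' _ h3.2)
  obtain ⟨l, hl⟩ := mem_iUnion.1 (hY (mem_univ c))
  obtain ⟨s, hs, -⟩ := hp l 0 ⟨c, hl⟩
  exact absurd (show s.1 < 0 from hs) (not_lt.2 zero_le)

theorem classification : ∃ (r : (Cs → Cs) → Ordinal.{0}) (t : (Cs → Cs) → SignType),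
    (∀ f g, Tame f → Tame g →
      (leCone f g ↔ r f < r g ∨ (r f = r g ∧ (t f = 0 ∨ t f = t g)))) ∧
    (∀ f, Tame f → r (cpl f) = r f ∧ t (cpl f) = - t f) ∧
    ∀ α σ, (∃ f, Tame f ∧ r f = α ∧ t f = σ) ↔ α < Ordinal.omega 1 ∧ (α ≠ 0 ∨ σ ≠ 0) := by
  refine ⟨rk, sg, fun f g hf hg => leCone_iff hf hg, fun f hf => ⟨rk_cpl f, ?_⟩, fun α σ =>
    ⟨?_, fun h => onto h.1 h.2⟩⟩
  · obtain ⟨s, -, hs⟩ := exists_P hf
    exact sg_cpl hs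
  · rintro ⟨f, hf, rfl, rfl⟩
    exact ⟨rk_lt hf, not_zero hf⟩

end Pool.Agent.Lib.MP_5684f0_lc.U
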