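import Pool.Agent.Lib.MP_5684f0_lc.U.Rank

/-!
Every level and every sign occur.
-/

namespace Pool.Agent.Lib.MP_5684f0_lc.U

open Filter Topology Set Ordinal Nat.Partrec PiNat

/-- The state after `j` outputs. -/
noncomputable def val (lam : ℕ → St) (s : St) (v : ℕ → ℕ) : ℕ → St
  | 0 => s
  | j + 1 => if (lam (v j)).1 < (val lam s v j).1 then lam (v j) else val lam s v j

variable {lam : ℕ → St} {s : St}

theorem val_down (v : ℕ → ℕ) : Down (val lam s v) := fun t => by
  simp only [val]
  split_ifs with h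
  · exact Or.inr h
  · exact Or.inl rfl

theorem down_le {u : ℕ → St} (h : Down u) {a b : ℕ} (hab : a ≤ b) :
    u b = u a ∨ (u b).1 < (u a).1 := by
  induction b, hab using Nat.le_induction with
  | base => exact Or.inl rfl
  | succ b _ ih =>
    rcases h b with h | h
    · rwa [h]
    · rcases ih with ih | ih
      · exact Or.inr (ih ▸ h)
      · exact Or.inr (h.trans ih)

theorem val_congr {v v' : ℕ → ℕ} {j : ℕ} (h : ∀ i < j, v i = v' i) :
    val lam s v j = val lam s v' j := by
  induction j with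
  | zero => rfl
  | succ j ih =>
    simp only [val]
    rw [ih fun i hi => h i (by omega), h j (by omega)]

/-- The states reached with outputs allowed by `R`. -/
def reach (lam : ℕ → St) (s : St) (R : ℕ → ℕ → Prop) : Set St :=
  {u | ∃ (v : ℕ → ℕ) (j : ℕ), (∀ i < j, R i (v i)) ∧ val lam s v j = u}

theorem reach_self (R : ℕ → ℕ → Prop) : s ∈ reach lam s R := ⟨fun _ => 0, 0, by simp, rfl⟩

theorem reach_mono {R R' : ℕ → ℕ → Prop} (h : ∀ i v, R i v → R' i v) :
    reach lam s R ⊆ reach lam s R' := fun _ ⟨v, j, h1, h2⟩ => ⟨v, j, fun i hi => h _ _ (h1 i hi), h2⟩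

theorem reach_eq {R : ℕ → ℕ → Prop} (hR : ∀ i v v', R i v → R i v' → v = v') {u u' : St}
    (hu : u ∈ reach lam s R) (hu' : u' ∈ reach lam s R) (e : u.1 = u'.1) : u = u' := by
  obtain ⟨v, j, h1, rfl⟩ := hu
  obtain ⟨v', j', h2, rfl⟩ := hu'
  wlog hj : j ≤ j' generalizing v v' j j'
  · exact (this v' j' h2 v j h1 e.symm (by omega)).symm
  have h3 : val lam s v j = val lam s v' j :=
    val_congr fun i hi => hR i _ _ (h1 i hi) (h2 i (by omega))
  rw [h3] at e ⊢
  exact ((down_le (val_down v') hj).resolve_right (by rw [e]; exact lt_irrefl _)).symm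

/-- The lowest state that is reached. -/
noncomputable def low (lam : ℕ → St) (s : St) (R : ℕ → ℕ → Prop) : St :=
  (InvImage.wf (fun u : St => u.1) wellFounded_lt).min (reach lam s R) ⟨s, reach_self R⟩

theorem low_mem (R : ℕ → ℕ → Prop) : low lam s R ∈ reach lam s R := WellFounded.min_mem _ _ _

theorem low_le {R : ℕ → ℕ → Prop} {u : St} (h : u ∈ reach lam s R) : (low lam s R).1 ≤ u.1 :=
  not_lt.1 (WellFounded.not_lt_min (InvImage.wf (fun u : St => u.1) wellFounded_lt) _ h)

/-- The last guesses of all processes that are given by a program. -/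
noncomputable def G (lam ini : ℕ → St) (x : Cs) : Cs := fun n =>
  (low lam (ini n.unpair.1) fun i v => v ∈ ev x (Denumerable.ofNat Code n.unpair.2) i).2

variable {ini : ℕ → St}

theorem G_op : OP (G lam ini) := by
  intro x y h
  obtain ⟨i, hi⟩ := exists_code (y := y) (F := chi x) (RecursiveIn.iff_nat.1 h)
  refine ⟨fun n => Nat.pair n.unpair.1
    (Encodable.encode (sub i (Denumerable.ofNat Code n.unpair.2))), ?_, fun n => ?_⟩
  · exact (Primrec₂.natPair.comp (Primrec.fst.comp Primrec.unpair) (Primrec.encode.comp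
      ((primrec_sub i).comp ((Primrec.ofNat Code).comp (Primrec.snd.comp Primrec.unpair))))).to_comp
  · simp [G, ev_sub hi]

theorem G_proc (n : ℕ) : Proc univ (fun x => G lam ini x n) {ini n.unpair.1} := by
  set c := Denumerable.ofNat Code n.unpair.2 with hc
  let R : Cs → ℕ → ℕ → ℕ → Prop := fun x t i v => i < t ∧ ∀ x' ∈ cylinder x t, v ∈ ev x' c i
  have hsub : ∀ x t, reach lam (ini n.unpair.1) (R x t) ⊆
      reach lam (ini n.unpair.1) fun i v => v ∈ ev x c i :=
    fun x t => reach_mono fun i v h => h.2 x (self_mem_cylinder x t)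
  have huniq : ∀ x i v v', v ∈ ev x c i → v' ∈ ev x c i → v = v' :=
    fun x i v v' => Part.mem_unique
  refine ⟨fun x t => low lam (ini n.unpair.1) (R x t), fun t y _ => ?_, fun y _ => ⟨?_, ?_, ?_⟩⟩
  · rw [nhdsWithin_univ]
    filter_upwards [cyl_mem_nhds y t] with y' hy'
    simp only [R, mem_cylinder_iff_eq.1 hy']
  · obtain ⟨v, j, h1, h2⟩ := low_mem (lam := lam) (s := ini n.unpair.1) (R y 0)
    cases j with
    | zero => exact h2.symm
    | succ j => exact absurd (h1 0 (by omega)).1 (lt_irrefl 0)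
  · intro t
    have h1 : low lam (ini n.unpair.1) (R y t) ∈ reach lam (ini n.unpair.1) (R y (t + 1)) :=
      reach_mono (fun i v h => ⟨h.1.trans (Nat.lt_succ_self t),
        fun x' hx => h.2 x' (cylinder_anti y (Nat.le_succ t) hx)⟩) (low_mem _)
    exact (eq_or_lt_of_le (low_le h1)).imp_left fun e =>
      reach_eq (huniq y) (hsub y _ (low_mem _)) (hsub y _ h1) e
  · obtain ⟨v, j, h1, h2⟩ := low_mem (lam := lam) (s := ini n.unpair.1)
      fun i v => v ∈ ev y c i
    have h3 : ∀ᶠ t in atTop, ∀ i ∈ Finset.range j, R y t i (v i) := by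
      refine (Finset.eventually_all _).2 fun i hi => ?_
      obtain ⟨k, hk⟩ := exists_cyl_subset (ev_open y c i _ (h1 i (Finset.mem_range.1 hi)))
      filter_upwards [eventually_ge_atTop k, eventually_gt_atTop i] with t a1 a2
      exact ⟨a2, fun x' hx => hk (cylinder_anti y a1 hx)⟩
    filter_upwards [h3] with t ht
    have h4 : low lam (ini n.unpair.1) (fun i v => v ∈ ev y c i) ∈
        reach lam (ini n.unpair.1) (R y t) := ⟨v, j, fun i hi => ht i (Finset.mem_range.2 hi), h2⟩
    exact congrArg Prod.snd (reach_eq (huniq y) (hsub y _ (low_mem _)) (low_mem _)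
      (le_antisymm (low_le h4) (low_le (hsub y _ (low_mem _)))))

theorem proc_gd {g : Cs → Bool} {S : Set St} (h : Proc univ g S) (b : Bool) :
    IsGδ {x | g x = b} := by
  obtain ⟨st, h1, h2⟩ := h
  have : {x | g x = b} = ⋂ t : ℕ, ⋃ t' ≥ t, {x | (st x t').2 = b} := by
    ext x
    obtain ⟨t0, h0⟩ := eventually_atTop.1 (h2 x (mem_univ x)).2.2
    simp only [mem_ofPred_eq, mem_iInter, mem_iUnion]
    refine ⟨fun h t => ⟨max t t0, le_max_left _ _, (h0 _ (le_max_right _ _)).trans h⟩, fun h => ?_⟩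
    obtain ⟨t, ht, e⟩ := h t0
    exact (h0 t ht).symm.trans e
  rw [this]
  refine IsGδ.iInter fun t => IsOpen.isGδ (isOpen_iUnion fun t' => isOpen_iUnion fun _ => ?_)
  refine isOpen_iff_mem_nhds.2 fun x hx => ?_
  have := h1 t' x (mem_univ x)
  rw [nhdsWithin_univ] at this
  exact this.mono fun y hy => (congrArg Prod.snd hy).trans hx

theorem G_tame : Tame (G lam ini) :=
  ⟨fun _ => false, fun x y _ h => G_op x y h, id, continuous_id,
    fun x _ => ⟨leT_refl x, leT_refl x⟩, fun a b => proc_gd (G_proc a) b⟩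

theorem exists_rec_of_lc {Y : Set Cs} {w : Cs → ℕ → ℕ} (h : ∀ p, LC Y (fun y => w y p)) :
    ∃ c, ∀ y ∈ Y, leT c y → Rec y (w y) := by
  obtain ⟨c, hc⟩ := exists_leT_of_lc (Y := Y)
    (θ := fun y q => decide (w y q.unpair.1 ≠ q.unpair.2)) fun q y hy =>
      (h q.unpair.1 y hy).mono fun y' e => by simp only at e ⊢; rw [e]
  refine ⟨c, fun y hy hcy => ?_⟩
  have h1 := leT_iff.1 (hc y hy hcy)
  refine (h1.find fun n => ⟨w y n, by simp [bit]⟩).congr fun n => ?_
  rw [Nat.find_eq_iff]
  exact ⟨by simp [bit], fun k hk => by simp [bit, hk.ne']⟩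

/-- Diagonalisation. -/
theorem G_hard {β : Ordinal.{0}} (hl : ∀ u : St, u.1 ≤ β → ∃ k, lam k = u) {k0 : ℕ}
    (hk : (ini k0).1 ≤ β) : ¬ Cov (G lam ini) {flip (ini k0)} univ := by
  classical
  rintro ⟨Y, hY, hp⟩
  let nn : ℕ → ℕ := fun a => Nat.pair k0 (Encodable.encode (cur (Denumerable.ofNat Code a) a))
  let idx : St → ℕ := fun u => if h : ∃ k, lam k = u then h.choose else 0
  have hidx : ∀ u : St, u.1 ≤ β → lam (idx u) = u := fun u hu => by
    simp only [idx, dif_pos (hl u hu)]
    exact (hl u hu).choose_spec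
  have key : ∀ l, ∃ c, ∀ y ∈ Y l, ¬ leT c y := by
    intro l
    rcases (Y l).eq_empty_or_nonempty with he | hne
    · exact ⟨fun _ => false, fun y hy => by simp [he] at hy⟩
    have h1 : ∀ a, Proc (Y l) (fun y => !G lam ini y (nn a)) {ini k0} := fun a => by
      obtain ⟨u, hu, h⟩ := hp l (nn a) hne
      rw [mem_singleton_iff.1 hu] at h
      exact h.not.mono Subset.rfl fun v hv => by
        have : flip v = flip (ini k0) := hv
        rw [← flip_flip v, this, flip_flip]; rfl
    choose st hlc hst using h1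
    obtain ⟨c, hc⟩ := exists_rec_of_lc (Y := Y l)
      (w := fun y p => idx (st p.unpair.1 y (p.unpair.2 + 1))) fun p y hy =>
        (hlc p.unpair.1 (p.unpair.2 + 1) y hy).mono fun y' e => by simp only at e ⊢; rw [e]
    refine ⟨c, fun y hy hcy => ?_⟩
    obtain ⟨e, he⟩ := exists_code (hc y hy hcy)
    set a := Encodable.encode e with ha
    obtain ⟨s0, sd, sl⟩ := hst a y hy
    have s0' : st a y 0 = ini k0 := s0
    have hev : ∀ j, ev y (cur e a) j = Part.some (idx (st a y (j + 1))) := fun j => by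
      rw [ev_cur, he]
      simp
    have hle : ∀ j, (st a y j).1 ≤ β := fun j => by
      rcases down_le sd (Nat.zero_le j) with h | h
      · rw [h, s0']; exact hk
      · rw [s0'] at h; exact h.le.trans hk
    have hval : ∀ j, val lam (ini k0) (fun i => idx (st a y (i + 1))) j = st a y j := by
      intro j
      induction j with
      | zero => exact s0'.symm
      | succ j ih =>
        simp only [val, ih, hidx _ (hle _)]
        rcases sd j with h | h
        · rw [h, if_neg (lt_irrefl _)]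
        · rw [if_pos h]
    have hG : G lam ini y (nn a) = (low lam (ini k0) fun i v => v ∈ ev y (cur e a) i).2 := by
      simp [G, nn, ha]
    obtain ⟨v, j, h1, h2⟩ := low_mem (lam := lam) (s := ini k0) fun i v => v ∈ ev y (cur e a) i
    rw [val_congr (v' := fun i => idx (st a y (i + 1)))
      (fun i hi => by simpa [hev] using h1 i hi), hval] at h2
    obtain ⟨t, ht, ht'⟩ := ((eventually_ge_atTop j).and sl).exists
    have h3 : st a y t ∈ reach lam (ini k0) fun i v => v ∈ ev y (cur e a) i :=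
      ⟨_, t, fun i _ => Part.eq_some_iff.1 (hev i), hval t⟩
    have h4 : st a y t = st a y j :=
      (down_le sd ht).resolve_right (not_lt.2 (h2 ▸ low_le h3))
    rw [h4, h2, ← hG] at ht'
    simp at ht'
  choose c hc using key
  obtain ⟨y, hy⟩ := exists_upper c
  obtain ⟨l, hl'⟩ := mem_iUnion.1 (hY (mem_univ y))
  exact hc l y hl' (hy l)

theorem P.up {f : Cs → Cs} {u u' : St} (h : P f u) (hu : u.1 < u'.1) : P f u' := by
  obtain ⟨c, Y, hY, hp⟩ := h
  refine ⟨c, Y, hY, fun l a hne => ⟨_, rfl, ?_⟩⟩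
  obtain ⟨v, hv, h⟩ := hp l a hne
  rw [mem_singleton_iff.1 hv] at h
  exact h.up hu

theorem G_P {u : St} (h : ∀ k, ini k = u ∨ (ini k).1 < u.1) : P (G lam ini) u := by
  refine P.of_cov ⟨fun _ => univ, subset_iUnion (fun _ : ℕ => (univ : Set Cs)) 0,
    fun _ a _ => ⟨_, rfl, ?_⟩⟩
  rcases h a.unpair.1 with h | h
  · exact h ▸ G_proc a
  · exact (G_proc a).up h

theorem onto {α : Ordinal.{0}} (hα : α < ω₁) {σ : SignType} (h : α ≠ 0 ∨ σ ≠ 0) :
    ∃ f, Tame f ∧ rk f = α ∧ sg f = σ := by
  obtain ⟨lam, hlam⟩ := (countable_lower (succ_lt_omega_one hα)).exists_eq_range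
    ⟨(α, false), (Order.lt_add_one_iff.2 le_rfl : α < α + 1)⟩
  have hl : ∀ u : St, u.1 ≤ α → ∃ k, lam k = u := fun u hu => by
    have : u ∈ range lam := hlam ▸ Order.lt_add_one_iff.2 hu
    exact this
  have pure : ∀ b, ∃ f, Tame f ∧ rk f = α ∧ P f (α, b) ∧ ¬ P f (α, !b) := fun b => by
    have h1 : P (G lam fun _ => (α, b)) (α, b) := G_P fun _ => Or.inl rfl
    have h2 : ¬ P (G lam fun _ => (α, b)) (α, !b) := fun h' =>
      G_hard (ini := fun _ => (α, b)) (k0 := 0) hl le_rfl (h'.cov G_op)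
    refine ⟨_, G_tame, (eq_or_lt_of_le h1.rk_le).resolve_right fun hlt => ?_, h1, h2⟩
    obtain ⟨b', hb'⟩ := h1.rk_mem
    exact h2 (hb'.up hlt)
  cases σ with
  | zero =>
    have h0 : α ≠ 0 := h.resolve_right (by simp)
    obtain ⟨ini, hini⟩ := (countable_lower hα).exists_eq_range
      ⟨(0, false), pos_iff_ne_zero.2 h0⟩
    have h1 : ∀ b, P (G lam ini) (α, b) := fun b => G_P fun k => Or.inr (by
      have : ini k ∈ {s : St | s.1 < α} := hini ▸ mem_range_self k
      exact this)
    have h2 : rk (G lam ini) = α := by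
      refine (eq_or_lt_of_le (h1 false).rk_le).resolve_right fun hlt => ?_
      obtain ⟨b', hb'⟩ := (h1 false).rk_mem
      have : (rk (G lam ini), !b') ∈ range ini := hini ▸ hlt
      obtain ⟨k, hk⟩ := this
      refine G_hard (ini := ini) (k0 := k) hl (by rw [hk]; exact hlt.le) ?_
      rw [hk]
      simpa only [flip, Bool.not_not] using hb'.cov G_op
    exact ⟨_, G_tame, h2, by simp [sg, h2, h1]⟩
  | neg =>
    obtain ⟨f, a1, a2, -, a4⟩ := pure true
    exact ⟨f, a1, a2, by simp only [Bool.not_true] at a4; simp [sg, a2, a4]⟩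
  | pos =>
    obtain ⟨f, a1, a2, a3, a4⟩ := pure false
    exact ⟨f, a1, a2, by simp only [Bool.not_false] at a4; simp [sg, a2, a3, a4]⟩

end Pool.Agent.Lib.MP_5684f0_lc.U
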