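import Pool.Agent.Lib.MP_5684f0_lc.U.Code

/-!
The level and the sign of a function, and the comparison of tame functions.
-/

namespace Pool.Agent.Lib.MP_5684f0_lc.U

open Filter Topology Set Ordinal

/-- On some cone the bits of `f` are guessed from the state `s`. -/
def P (f : Cs → Cs) (s : St) : Prop := ∃ c, Cov f {s} {x | leT c x}

theorem proc_pull {Y Y' : Set Cs} {g g' : Cs → Bool} {S : Set St} (h : Proc Y g S)
    {θ : Cs → Cs} (hθ : Continuous θ) (hY : ∀ x ∈ Y', θ x ∈ Y) (hg : ∀ x ∈ Y', g' x = g (θ x)) :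
    Proc Y' g' S := by
  obtain ⟨st, h1, h2⟩ := h
  refine ⟨fun y t => st (θ y) t, fun t y hy => ?_, fun y hy => ?_⟩
  · have : Tendsto θ (𝓝[Y'] y) (𝓝[Y] (θ y)) := hθ.continuousWithinAt.tendsto_nhdsWithin hY
    exact this.eventually (h1 t _ (hY y hy))
  · rw [hg y hy]
    exact h2 _ (hY y hy)

theorem cov_pull {f g : Cs → Cs} {S : Set St} {A B : Set Cs} {θ : Cs → Cs} (hθ : Continuous θ)
    (e : ℕ → ℕ → ℕ) (h : Cov g S B)
    (hA : ∀ x ∈ A, θ x ∈ B ∧ ∃ m, ∀ a, f x a = g (θ x) (e m a)) : Cov f S A := by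
  obtain ⟨Y, hY, hp⟩ := h
  refine ⟨fun l => {x | θ x ∈ Y l.unpair.1 ∧ ∀ a, f x a = g (θ x) (e l.unpair.2 a)},
    fun x hx => ?_, fun l a ⟨x, hx⟩ => ?_⟩
  · obtain ⟨h1, m, h2⟩ := hA x hx
    obtain ⟨l, hl⟩ := mem_iUnion.1 (hY h1)
    exact mem_iUnion.2 ⟨Nat.pair l m, by simpa using ⟨hl, h2⟩⟩
  · obtain ⟨s, hs, h⟩ := hp _ (e l.unpair.2 a) ⟨_, hx.1⟩
    exact ⟨s, hs, proc_pull h hθ (fun x hx => hx.1) fun x hx => hx.2 a⟩

theorem P.of_le {f g : Cs → Cs} {s : St} (hg : P g s) (h : leCone f g) : P f s := by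
  obtain ⟨c, hc⟩ := h
  obtain ⟨d, hd⟩ := hg
  obtain ⟨u, hu, hu'⟩ := exists_upper2 c d
  obtain ⟨e, he⟩ := exists_enum_rec c
  refine ⟨u, cov_pull continuous_id e hd fun x hx => ⟨hu'.trans hx, ?_⟩⟩
  obtain ⟨ρ, hρ, h⟩ := hc x (hu.trans hx)
  obtain ⟨m, rfl⟩ := he ρ (tr_iff.1 hρ)
  exact ⟨m, h⟩

theorem P.cov {f : Cs → Cs} {s : St} (h : P f s) (hf : OP f) : Cov f {s} univ := by
  obtain ⟨c, hc⟩ := h
  obtain ⟨e, he⟩ := exists_enum
  refine cov_pull (continuous_join c) e hc fun x _ => ⟨leT_join_right x c, ?_⟩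
  obtain ⟨ρ, hρ, h⟩ := hf _ _ (leT_join_left x c)
  obtain ⟨m, rfl⟩ := he ρ hρ
  exact ⟨m, h⟩

theorem P.of_cov {f : Cs → Cs} {s : St} (h : Cov f {s} univ) : P f s :=
  ⟨fun _ => false, (covId f {s}).mono (subset_univ _) h⟩

theorem P.cpl {f : Cs → Cs} {s : St} (h : P f s) : P (cpl f) (flip s) := by
  obtain ⟨c, Y, hY, hp⟩ := h
  refine ⟨c, Y, hY, fun l a hne => ⟨_, rfl, ?_⟩⟩
  obtain ⟨u, hu, h⟩ := hp l a hne
  rw [mem_singleton_iff.1 hu] at h
  exact h.not.mono Subset.rfl fun v hv => by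
    have : flip v = s := hv
    rw [← this, flip_flip]; rfl

theorem cpl_cpl (f : Cs → Cs) : cpl (cpl f) = f := by
  funext x n
  simp [cpl]

theorem P_cpl {f : Cs → Cs} {β : Ordinal.{0}} {b : Bool} : P (cpl f) (β, b) ↔ P f (β, !b) :=
  ⟨fun h => by simpa only [cpl_cpl, flip] using h.cpl,
    fun h => by simpa only [flip, Bool.not_not] using h.cpl⟩

/-- The level of a function. -/
noncomputable def rk (f : Cs → Cs) : Ordinal.{0} := sInf {β | ∃ b, P f (β, b)}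

open Classical in
/-- The sign of a function. -/
noncomputable def sg (f : Cs → Cs) : SignType :=
  if P f (rk f, false) then (if P f (rk f, true) then 0 else 1) else -1

theorem P.rk_le {f : Cs → Cs} {s : St} (h : P f s) : rk f ≤ s.1 := csInf_le' ⟨s.2, h⟩

theorem P.rk_mem {f : Cs → Cs} {s : St} (h : P f s) : ∃ b, P f (rk f, b) :=
  csInf_mem (s := {β | ∃ b, P f (β, b)}) ⟨s.1, s.2, h⟩

theorem rk_cpl (f : Cs → Cs) : rk (cpl f) = rk f := by
  unfold rk
  congr 1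
  ext β
  exact ⟨fun ⟨b, h⟩ => ⟨!b, P_cpl.1 h⟩, fun ⟨b, h⟩ => ⟨!b, P_cpl.2 (by simpa using h)⟩⟩

theorem sg_cpl {f : Cs → Cs} {s : St} (h : P f s) : sg (cpl f) = - sg f := by
  obtain ⟨b, hb⟩ := h.rk_mem
  have e0 : P (cpl f) (rk (cpl f), false) ↔ P f (rk f, true) := by rw [rk_cpl]; exact P_cpl
  have e1 : P (cpl f) (rk (cpl f), true) ↔ P f (rk f, false) := by rw [rk_cpl]; exact P_cpl
  unfold sg
  by_cases h0 : P f (rk f, false) <;> by_cases h1 : P f (rk f, true) <;> cases b <;>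
    simp_all

theorem leCone_of_leM {f g : Cs → Cs} {c : Cs} (h : ∀ x, leT c x → leM (f x) (g x)) :
    leCone f g :=
  ⟨c, fun x hx => by
    obtain ⟨ρ, hρ, h1⟩ := h x hx
    exact ⟨ρ, tr_iff.2 (.of_computable hρ), h1⟩⟩

theorem exists_P {f : Cs → Cs} (hf : Tame f) : ∃ s : St, s.1 < ω₁ ∧ P f s := by
  obtain ⟨f', c, _, a2, a3⟩ := hf.normal
  obtain ⟨s, hs, h⟩ := exists_cov a2
  exact ⟨s, hs, (P.of_cov h).of_le (leCone_of_leM fun x hx => (a3 x hx).1)⟩

theorem rk_lt {f : Cs → Cs} (hf : Tame f) : rk f < ω₁ := by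
  obtain ⟨s, hs, h⟩ := exists_P hf
  exact lt_of_le_of_lt h.rk_le hs

/-- The comparison of tame functions. -/
theorem leCone_iff {f g : Cs → Cs} (hf : Tame f) (hg : Tame g) :
    leCone f g ↔ rk f < rk g ∨ (rk f = rk g ∧ (sg f = 0 ∨ sg f = sg g)) := by
  obtain ⟨s, -, hs⟩ := exists_P hf
  obtain ⟨u, -, hu⟩ := exists_P hg
  obtain ⟨b, hb⟩ := hs.rk_mem
  obtain ⟨b', hb'⟩ := hu.rk_mem
  constructor
  · intro h
    refine (lt_or_eq_of_le (hb'.of_le h).rk_le).imp_right fun e => ⟨e, ?_⟩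
    have h0 : P g (rk g, false) → P f (rk f, false) := fun h' => e ▸ h'.of_le h
    have h1 : P g (rk g, true) → P f (rk f, true) := fun h' => e ▸ h'.of_le h
    unfold sg
    by_cases a0 : P g (rk g, false) <;> by_cases a1 : P g (rk g, true) <;>
      by_cases a2 : P f (rk f, false) <;> by_cases a3 : P f (rk f, true) <;> cases b' <;>
      simp_all
  · intro h
    obtain ⟨f', c, a1, a2, a3⟩ := hf.normal
    obtain ⟨g', d, b1, b2, b3⟩ := hg.normal
    have hf' : ∀ v, P f v → Cov f' {v} univ := fun v hv =>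
      (hv.of_le (leCone_of_leM fun x hx => (a3 x hx).2)).cov a1
    have hg' : ∀ v, Cov g' {v} univ → P g v := fun v hv =>
      (P.of_cov hv).of_le (leCone_of_leM fun x hx => (b3 x hx).1)
    refine leCone_of (f' := f') (g' := g') ?_ (fun x hx => (a3 x hx).1) fun x hx => (b3 x hx).2
    have hle : rk f ≤ rk g := h.elim le_of_lt fun h => h.1.le
    by_cases h2 : P f (rk f, false) ∧ P f (rk f, true)
    · refine leCone_of_cov b1 b2 (S := {v | v.1 < rk f}) (fun v hv => lt_trans hv (rk_lt hf))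
        (cov_lower a1 a2 (rk_lt hf) (hf' _ h2.1) (hf' _ h2.2)) fun v hv hc => ?_
      exact absurd (hg' _ hc).rk_le (not_le.2 (lt_of_lt_of_le hv hle))
    · refine leCone_of_cov b1 b2 (S := {(rk f, b)})
        (fun v hv => by rw [mem_singleton_iff.1 hv]; exact rk_lt hf) (hf' _ hb)
        fun v hv hc => ?_
      rw [mem_singleton_iff.1 hv] at hc
      have h3 : P g (rk f, !b) := hg' _ hc
      rcases h with h | ⟨e, h⟩
      · exact absurd h3.rk_le (not_le.2 h)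
      · rw [e] at h3
        unfold sg at h
        by_cases a0 : P g (rk g, false) <;> by_cases a1 : P g (rk g, true) <;>
          by_cases a2 : P f (rk f, false) <;> by_cases a3 : P f (rk f, true) <;> cases b <;>
          simp_all

end Pool.Agent.Lib.MP_5684f0_lc.U
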